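import Mathlib
import Pool.Agent.X255.RH.Main
import Pool.Agent.Y771.JQ.Main

/-!
# `J(q)`, `D J(q)`, `D² J(q)` at all roots in the unit disc of almost all integral polynomials

The question is whether the `3 n` numbers `J(q_i)`, `D J(q_i)`, `D² J(q_i)` are algebraically independent for algebraic numbers `q_1, …, q_n` in the
punctured unit disc which are pairwise multiplicatively independent. We consider the case that `q_1, …, q_n` are all the roots `q ≠ 0` of an
integral polynomial of degree `g` with `|q| ≤ 1 - 1 / (ω + 1)`, so for an irreducible polynomial all the conjugates of an algebraic number of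
degree `g` in this part of the disc (and the rational numbers for `g = 1`).

We prove: for almost all integral polynomials with coefficients at most `T` the numbers `J(q)`, `D J(q)`, `D² J(q)` at all these roots `q` together
satisfy no algebraic relation over number fields whose degree and whose field degree is at most `ω(T)` and whose height is at most `T ^ ω(T)`,
where `ω(T) → ∞`; the coefficients of the relations may contain arbitrary given complex numbers `ξ_0, ξ_1, …`, for instance the powers of `π`.

The proof is an application of `Pool.Agent.X255.RH.main_all` (values of algebraically independent functions at the roots of almost all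
polynomials) and of Mahler's theorem that `q`, `J(q)`, `D J(q)`, `D² J(q)` are algebraically independent functions
(`Pool.Agent.Y771.JQ.three_ind`).
-/

set_option autoImplicit false

open Polynomial Filter Topology NumberField

namespace Pool.Agent.Results.MP_151840_nt.AllRootsInTheDisc

/-- The normalised Eisenstein series of weight `4` as a function of the nome. -/
noncomputable def E4 (q : ℂ) : ℂ :=
  1 + 240 * ∑' m : ℕ, ((ArithmeticFunction.sigma 3 (m + 1) : ℕ) : ℂ) * q ^ (m + 1)

/-- The normalised Eisenstein series of weight `6` as a function of the nome. -/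
noncomputable def E6 (q : ℂ) : ℂ :=
  1 - 504 * ∑' m : ℕ, ((ArithmeticFunction.sigma 5 (m + 1) : ℕ) : ℂ) * q ^ (m + 1)

/-- The function `J(q) = 1 / q + 744 + 196884 q + ⋯` on the punctured unit disc. -/
noncomputable def J (q : ℂ) : ℂ := 1728 * E4 q ^ 3 / (E4 q ^ 3 - E6 q ^ 2)

/-- The values `J(q)`, `D J(q)`, `D² J(q)`, where `D = q d/dq`. -/
noncomputable def values : Fin 3 → ℂ → ℂ := fun i q => ![J q, q * deriv J q, q * deriv (fun u => u * deriv J u) q] i

/-- The integral vectors `a = (a_0, …, a_g)` with `|a_i| ≤ T`. -/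
noncomputable def box (g T : ℕ) : Finset (Fin (g + 1) → ℤ) := Fintype.piFinset fun _ => Finset.Icc (-(T : ℤ)) (T : ℤ)

/-- The polynomial `a_0 + a_1 x + … + a_g x^g`. -/
noncomputable def poly {g : ℕ} (a : Fin (g + 1) → ℤ) : ℂ[X] := ∑ i, C (a i : ℂ) * X ^ (i : ℕ)

/-- The points `q ≠ 0` with `|q| ≤ 1 - 1 / (k + 1)`. -/
def dom (k : ℕ) : Set ℂ := {q | q ≠ 0 ∧ ‖q‖ ≤ 1 - 1 / ((k : ℝ) + 1)}

/-- The roots in `dom k` of the polynomial with the coefficients `a`. -/
noncomputable def roots {g : ℕ} (k : ℕ) (a : Fin (g + 1) → ℤ) : Finset ℂ := by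
  classical exact (poly a).roots.toFinset.filter fun z => z ∈ dom k

/-- The numbers `x q` satisfy no relation of degree at most `k` in each of them with coefficients `∑_{b < k} ξ_b c_b`, where the `c_b` are
integers of a number field of degree at most `k` all of whose conjugates are at most `T ^ k`, except the relations all of whose coefficients
vanish. -/
def NoRelation {Q : Type} [Fintype Q] [DecidableEq Q] (ξ : ℕ → ℂ) (k : ℕ) (T : ℝ) (x : Q → ℂ) : Prop :=
  ∀ (F : Type) [Field F] [NumberField F], Module.finrank ℚ F ≤ k → ∀ (io : F →+* ℂ)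
    (c : (Q → Fin (k + 1)) → Fin k → 𝓞 F), (∀ l b (φ : F →+* ℂ), ‖φ (c l b : F)‖ ≤ T ^ k) →
    ∑ l, (∑ b : Fin k, ξ b * io (c l b : F)) * ∏ q, x q ^ (l q : ℕ) = 0 → ∀ l, ∑ b : Fin k, ξ b * io (c l b : F) = 0

/-- The polynomial with the coefficients `a` has degree `g` and simple roots, and there is no relation between the numbers `J(q)`, `D J(q)`,
`D² J(q)` at all its roots `q` in `dom k` together. -/
def Good {g : ℕ} (ξ : ℕ → ℂ) (k : ℕ) (T : ℝ) (a : Fin (g + 1) → ℤ) : Prop :=
  a (Fin.last g) ≠ 0 ∧ (poly a).Separable ∧
    NoRelation ξ k T fun q : {x // x ∈ roots k a} × Fin 3 => values q.2 q.1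

theorem tame (k : ℕ) : Pool.Agent.X255.RH.Tame (dom k) Pool.Agent.Y771.JQ.punct := by
  refine ⟨{0}, 1 / ((k : ℝ) + 1), by positivity, fun R => (Set.finite_singleton _).inter_of_left _, ?_⟩
  rintro z ⟨_, hz2⟩ w hw
  by_cases h : w = 0
  · exact Or.inl ⟨0, rfl, by rw [h]⟩
  · right
    right
    have h1 : 1 ≤ ‖w‖ := by
      by_contra h'
      exact hw ⟨h, not_le.1 h'⟩
    have h2 := norm_sub_norm_le w z
    rw [norm_sub_rev] at h2
    linarith

open scoped Classical in
/-- **All roots of almost all polynomials.** For every degree `g ≥ 1` and all complex numbers `ξ_0, ξ_1, …` there is a function `ω(T) → ∞` such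
that among the `(2 T + 1)^(g + 1)` integral polynomials with coefficients at most `T` at most the proportion `1 / ω(T)` is not good. -/
theorem result (g : ℕ) (hg : 0 < g) (ξ : ℕ → ℂ) :
    ∃ ω : ℕ → ℕ, Tendsto ω atTop atTop ∧ Monotone ω ∧ ∀ T : ℕ,
      ω T * ((box g T).filter fun a => ¬ Good ξ (ω T) T a).card ≤ (box g T).card :=
  Pool.Agent.X255.RH.main_all (f := values) hg Pool.Agent.Y771.JQ.punct_preconn Pool.Agent.Y771.JQ.punct_open dom tame
    Pool.Agent.Y771.JQ.three_an (Pool.Agent.X255.RH.indep_of_aindepS Pool.Agent.Y771.JQ.three_ind) ξ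

end Pool.Agent.Results.MP_151840_nt.AllRootsInTheDisc
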